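import Pool.Agent.H74R2.WT.Stmts

/-!
# Task A: extension to a Pythagorean field with all roots of unity
-/

set_option autoImplicit false

namespace H74R2.WT

namespace TA

theorem ext_hom {K L M : Type} [Field K] [Field L] [Field M] [IsAlgClosed M] [Algebra K L]
    [Algebra.IsAlgebraic K L] (σ : K →+* M) :
    ∃ τ : L →+* M, ∀ k, τ (algebraMap K L k) = σ k := by
  letI := σ.toAlgebra
  exact ⟨(IsAlgClosed.lift : L →ₐ[K] M).toRingHom,
    fun k => (IsAlgClosed.lift : L →ₐ[K] M).commutes k⟩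

/-- the real numbers `x` in `L` with `τ x` real -/
def KK (L : Subfield ℂ) (τ : L →+* ℂ) : Subfield ℝ where
  carrier := {x | ∃ h : (x : ℂ) ∈ L, (τ ⟨(x : ℂ), h⟩).im = 0}
  mul_mem' := by
    rintro x y ⟨hx, hx'⟩ ⟨hy, hy'⟩
    have h : ((x * y : ℝ) : ℂ) ∈ L := by
      rw [Complex.ofReal_mul]; exact L.mul_mem hx hy
    refine ⟨h, ?_⟩
    have e : (⟨((x * y : ℝ) : ℂ), h⟩ : L) = ⟨(x : ℂ), hx⟩ * ⟨(y : ℂ), hy⟩ := by
      apply Subtype.ext
      push_cast
      rfl
    rw [e, map_mul, Complex.mul_im, hx', hy']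
    ring
  one_mem' := by
    have h : ((1 : ℝ) : ℂ) ∈ L := by
      rw [Complex.ofReal_one]; exact L.one_mem
    refine ⟨h, ?_⟩
    have e : (⟨((1 : ℝ) : ℂ), h⟩ : L) = 1 := by
      apply Subtype.ext
      push_cast
      rfl
    rw [e, map_one, Complex.one_im]
  add_mem' := by
    rintro x y ⟨hx, hx'⟩ ⟨hy, hy'⟩
    have h : ((x + y : ℝ) : ℂ) ∈ L := by
      rw [Complex.ofReal_add]; exact L.add_mem hx hy
    refine ⟨h, ?_⟩
    have e : (⟨((x + y : ℝ) : ℂ), h⟩ : L) = ⟨(x : ℂ), hx⟩ + ⟨(y : ℂ), hy⟩ := by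
      apply Subtype.ext
      push_cast
      rfl
    rw [e, map_add, Complex.add_im, hx', hy']
    ring
  zero_mem' := by
    have h : ((0 : ℝ) : ℂ) ∈ L := by
      rw [Complex.ofReal_zero]; exact L.zero_mem
    refine ⟨h, ?_⟩
    have e : (⟨((0 : ℝ) : ℂ), h⟩ : L) = 0 := by
      apply Subtype.ext
      push_cast
      rfl
    rw [e, map_zero, Complex.zero_im]
  neg_mem' := by
    rintro x ⟨hx, hx'⟩
    have h : ((-x : ℝ) : ℂ) ∈ L := by
      rw [Complex.ofReal_neg]; exact L.neg_mem hx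
    refine ⟨h, ?_⟩
    have e : (⟨((-x : ℝ) : ℂ), h⟩ : L) = - ⟨(x : ℂ), hx⟩ := by
      apply Subtype.ext
      push_cast
      rfl
    rw [e, map_neg, Complex.neg_im, hx', neg_zero]
  inv_mem' := by
    rintro x ⟨hx, hx'⟩
    have h : ((x⁻¹ : ℝ) : ℂ) ∈ L := by
      rw [Complex.ofReal_inv]; exact L.inv_mem hx
    refine ⟨h, ?_⟩
    have e : (⟨((x⁻¹ : ℝ) : ℂ), h⟩ : L) = (⟨(x : ℂ), hx⟩)⁻¹ := by
      apply Subtype.ext
      push_cast
      rfl
    rw [e, map_inv₀, Complex.inv_im, hx', neg_zero, zero_div]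

theorem mem_KK {L : Subfield ℂ} {τ : L →+* ℂ} {x : ℝ} :
    x ∈ KK L τ ↔ ∃ h : (x : ℂ) ∈ L, (τ ⟨(x : ℂ), h⟩).im = 0 := Iff.rfl

/-- the value of `τ` -/
noncomputable def tt {L : Subfield ℂ} {τ : L →+* ℂ} (x : KK L τ) : ℂ :=
  τ ⟨((x : ℝ) : ℂ), (mem_KK.mp x.2).choose⟩

theorem tt_im {L : Subfield ℂ} {τ : L →+* ℂ} (x : KK L τ) : (tt x).im = 0 :=
  (mem_KK.mp x.2).choose_spec

/-- the restriction -/
noncomputable def ss (L : Subfield ℂ) (τ : L →+* ℂ) : KK L τ →+* ℝ where
  toFun x := (tt x).re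
  map_one' := by
    have e : tt (1 : KK L τ) = 1 := by
      unfold tt
      rw [← map_one τ]
      congr 1
    rw [e, Complex.one_re]
  map_mul' x y := by
    have e : tt (x * y) = tt x * tt y := by
      unfold tt
      rw [← map_mul τ]
      congr 1
      apply Subtype.ext
      push_cast
      rfl
    rw [e, Complex.mul_re, tt_im x, tt_im y]
    ring
  map_zero' := by
    have e : tt (0 : KK L τ) = 0 := by
      unfold tt
      rw [← map_zero τ]
      congr 1
    rw [e, Complex.zero_re]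
  map_add' x y := by
    have e : tt (x + y) = tt x + tt y := by
      unfold tt
      rw [← map_add τ]
      congr 1
      apply Subtype.ext
      push_cast
      rfl
    rw [e, Complex.add_re]

theorem im_of_sq {w : ℂ} {r : ℝ} (hr : 0 ≤ r) (h : w ^ 2 = (r : ℂ)) : w.im = 0 := by
  have h1 := congrArg Complex.im h
  have h2 := congrArg Complex.re h
  rw [pow_two, Complex.mul_im, Complex.ofReal_im] at h1
  rw [pow_two, Complex.mul_re, Complex.ofReal_re] at h2
  by_contra hne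
  have h3 : w.re = 0 := by
    have : 2 * (w.re * w.im) = 0 := by linarith
    rcases mul_eq_zero.mp (by linarith : w.re * w.im = 0) with h | h
    · exact h
    · exact absurd h hne
  rw [h3] at h2
  have h4 : 0 < w.im * w.im := mul_self_pos.mpr hne
  linarith

theorem inv_of_root {z : ℂ} {n : ℕ} (hn : 0 < n) (h : z ^ n = 1) :
    z⁻¹ = (starRingEnd ℂ) z := by
  have h1 : ‖z‖ = 1 := Complex.norm_eq_one_of_pow_eq_one h hn.ne'
  exact Complex.inv_eq_conj h1

end TA

open TA in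
theorem t_A : T_A := by
  intro K h3 σ hσ
  set L0 : IntermediateField K ℂ := algebraicClosure K ℂ with hL0
  obtain ⟨τ0, hτ0⟩ := ext_hom (K := K) (L := L0) (M := ℂ) (Complex.ofRealHom.comp σ)
  set L : Subfield ℂ := L0.toSubfield with hL
  let τ : L →+* ℂ := τ0
  have memL : ∀ z : ℂ, z ∈ L ↔ IsAlgebraic K z := fun z => mem_algebraicClosure_iff
  have hK : ∀ (x : ℝ) (hx : x ∈ K), ∃ h : (x : ℂ) ∈ L, τ ⟨(x : ℂ), h⟩ = ((σ ⟨x, hx⟩ : ℝ) : ℂ) := by
    intro x hx
    have h : (x : ℂ) ∈ L := L0.algebraMap_mem ⟨x, hx⟩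
    refine ⟨h, ?_⟩
    exact hτ0 ⟨x, hx⟩
  have hle : K ≤ KK L τ := by
    intro x hx
    obtain ⟨h, h'⟩ := hK x hx
    refine mem_KK.mpr ⟨h, ?_⟩
    rw [h', Complex.ofReal_im]
  have hI : Complex.I ∈ L := by
    rw [memL]
    refine IsAlgebraic.of_pow (n := 4) (by norm_num) ?_
    rw [Complex.I_pow_four]
    exact isAlgebraic_one
  refine ⟨KK L τ, ss L τ, ⟨hle h3, ?_, ?_⟩, hle, ?_⟩
  · intro h
    obtain ⟨h', e'⟩ := hK _ h3
    change (τ ⟨((Real.sqrt 3 : ℝ) : ℂ), _⟩).re = _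
    have e2 : τ ⟨((Real.sqrt 3 : ℝ) : ℂ), h'⟩ = (((-Real.sqrt 3) : ℝ) : ℂ) := by
      rw [e', hσ]
    rw [e2, Complex.ofReal_re]
  · intro a b ha hb
    obtain ⟨ha1, ha2⟩ := mem_KK.mp ha
    obtain ⟨hb1, hb2⟩ := mem_KK.mp hb
    set y := Real.sqrt (a ^ 2 + b ^ 2) with hy
    have hy2 : y ^ 2 = a ^ 2 + b ^ 2 := Real.sq_sqrt (by positivity)
    have hyc : ((y : ℝ) : ℂ) ^ 2 = (a : ℂ) ^ 2 + (b : ℂ) ^ 2 := by
      exact_mod_cast congrArg (fun t : ℝ => (t : ℂ)) hy2
    have hyL : ((y : ℝ) : ℂ) ∈ L := by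
      rw [memL]
      refine IsAlgebraic.of_pow (n := 2) (by norm_num) ?_
      rw [hyc]
      exact (memL _).mp (L.add_mem (L.pow_mem ha1 2) (L.pow_mem hb1 2))
    refine mem_KK.mpr ⟨hyL, ?_⟩
    set A := τ ⟨(a : ℂ), ha1⟩ with hA
    set B := τ ⟨(b : ℂ), hb1⟩ with hB
    have e : (τ ⟨((y : ℝ) : ℂ), hyL⟩) ^ 2 = A ^ 2 + B ^ 2 := by
      rw [hA, hB, ← map_pow, ← map_pow, ← map_pow, ← map_add]
      congr 1
      apply Subtype.ext
      push_cast
      exact hyc
    have hAr : A = ((A.re : ℝ) : ℂ) := by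
      apply Complex.ext
      · rw [Complex.ofReal_re]
      · rw [Complex.ofReal_im]; exact ha2
    have hBr : B = ((B.re : ℝ) : ℂ) := by
      apply Complex.ext
      · rw [Complex.ofReal_re]
      · rw [Complex.ofReal_im]; exact hb2
    refine im_of_sq (r := A.re ^ 2 + B.re ^ 2) (by positivity) ?_
    rw [e]
    conv_lhs => rw [hAr, hBr]
    push_cast
    rfl
  · intro ζ n hn hζ
    have hζL : ζ ∈ L := by
      rw [memL]
      refine IsAlgebraic.of_pow hn ?_
      rw [hζ]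
      exact isAlgebraic_one
    set z : L := ⟨ζ, hζL⟩ with hz
    set j : L := ⟨Complex.I, hI⟩ with hj
    set w := τ z with hw
    have hwn : w ^ n = 1 := by
      rw [hw, ← map_pow]
      have : z ^ n = 1 := by
        apply Subtype.ext
        push_cast
        exact hζ
      rw [this, map_one]
    have hinv := inv_of_root hn hζ
    have hwinv := inv_of_root hn hwn
    have two : (2 : ℂ) ≠ 0 := two_ne_zero
    -- real part
    have ere : ((ζ.re : ℝ) : ℂ) = (ζ + ζ⁻¹) / 2 := by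
      rw [hinv, Complex.add_conj]
      push_cast
      ring
    have eim : ((ζ.im : ℝ) : ℂ) * (2 * Complex.I) = ζ - ζ⁻¹ := by
      rw [hinv, Complex.sub_conj]
      push_cast
      ring
    have eim' : ((ζ.im : ℝ) : ℂ) = (ζ - ζ⁻¹) / (2 * Complex.I) := by
      rw [← eim]
      field_simp
    have h2L : (2 : ℂ) ∈ L := by
      have h11 := L.add_mem L.one_mem L.one_mem
      have e11 : (1 : ℂ) + 1 = 2 := by norm_num
      rwa [e11] at h11
    have hreL : ((ζ.re : ℝ) : ℂ) ∈ L := by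
      rw [ere]
      exact L.div_mem (L.add_mem hζL (L.inv_mem hζL)) h2L
    have himL : ((ζ.im : ℝ) : ℂ) ∈ L := by
      rw [eim']
      exact L.div_mem (L.sub_mem hζL (L.inv_mem hζL)) (L.mul_mem h2L hI)
    constructor
    · refine mem_KK.mpr ⟨hreL, ?_⟩
      have e1 : (⟨((ζ.re : ℝ) : ℂ), hreL⟩ : L) = (z + z⁻¹) / 2 := by
        apply Subtype.ext
        push_cast
        exact ere
      have e2 : τ ⟨((ζ.re : ℝ) : ℂ), hreL⟩ = (w + w⁻¹) / 2 := by
        rw [e1, map_div₀, map_add, map_inv₀, map_ofNat]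
      rw [e2, hwinv, Complex.add_conj]
      have : (((2 * w.re : ℝ) : ℂ)) / 2 = ((w.re : ℝ) : ℂ) := by
        push_cast
        field_simp
      rw [this, Complex.ofReal_im]
    · refine mem_KK.mpr ⟨himL, ?_⟩
      have e1 : (⟨((ζ.im : ℝ) : ℂ), himL⟩ : L) * (2 * j) = z - z⁻¹ := by
        apply Subtype.ext
        push_cast
        exact eim
      set v := τ ⟨((ζ.im : ℝ) : ℂ), himL⟩ with hv
      have e2 : v * (2 * τ j) = w - w⁻¹ := by
        rw [hv, hw, ← map_inv₀, ← map_sub, ← e1, map_mul, map_mul, map_ofNat]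
      have hj2 : (τ j) ^ 2 = -1 := by
        rw [← map_pow]
        have : j ^ 2 = -1 := by
          apply Subtype.ext
          push_cast
          exact Complex.I_sq
        rw [this, map_neg, map_one]
      rw [hwinv, Complex.sub_conj] at e2
      have hj3 : (τ j - Complex.I) * (τ j + Complex.I) = 0 := by
        have : (τ j - Complex.I) * (τ j + Complex.I) = (τ j) ^ 2 - Complex.I ^ 2 := by ring
        rw [this, hj2, Complex.I_sq]
        ring
      have hI0 : Complex.I ≠ 0 := Complex.I_ne_zero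
      rcases mul_eq_zero.mp hj3 with h | h
      · have hj4 : τ j = Complex.I := sub_eq_zero.mp h
        rw [hj4] at e2
        have e3 : v = ((w.im : ℝ) : ℂ) := by
          have : v * (2 * Complex.I) = ((w.im : ℝ) : ℂ) * (2 * Complex.I) := by
            rw [e2]; push_cast; ring
          exact mul_right_cancel₀ (mul_ne_zero two hI0) this
        rw [e3, Complex.ofReal_im]
      · have hj4 : τ j = -Complex.I := eq_neg_of_add_eq_zero_left h
        rw [hj4] at e2
        have e3 : v = ((-w.im : ℝ) : ℂ) := by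
          have : v * (2 * Complex.I) = ((-w.im : ℝ) : ℂ) * (2 * Complex.I) := by
            have e4 : v * (2 * -Complex.I) = -(v * (2 * Complex.I)) := by ring
            rw [e4] at e2
            have e5 : v * (2 * Complex.I) = -(((2 * w.im : ℝ) : ℂ) * Complex.I) := by
              rw [← e2, neg_neg]
            rw [e5]; push_cast; ring
          exact mul_right_cancel₀ (mul_ne_zero two hI0) this
        rw [e3, Complex.ofReal_im]

end H74R2.WT
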